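import Mathlib

/-!
# Every stable matching mechanism has RAT-degree at most three

We show that for all finite agent sets `M`, `W` with at least two agents on each side, every
stable matching mechanism is `3`-known-agents safely manipulable, hence has RAT-degree at most
`3`; in particular no family of stable matching mechanisms has RAT-degree `Ω(|M| + |W|)`.
-/

namespace Pool.Agent.Results.MP_35fdad_lc.RatDegreeAtMostThree

open Function

/-- A strict linear order on `X ∪ {φ}`; `φ` is `none`, and `gt x y` says that `x` is strictly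
preferred to `y`. -/
structure Pref (X : Type) where
  gt : Option X → Option X → Prop
  strict : IsStrictTotalOrder (Option X) gt

/-- The agents on the other side of the market, for the agent `a` of `M ⊕ W`. -/
def Other (M W : Type) : M ⊕ W → Type
  | .inl _ => W
  | .inr _ => M

/-- A profile of reports: every agent reports a strict linear order on the other side
and `φ`. -/
abbrev Profile (M W : Type) := ∀ a : M ⊕ W, Pref (Other M W a)

/-- A matching between `M` and `W`. -/
structure Matching (M W : Type) where
  ofM : M → Option W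
  ofW : W → Option M
  compat : ∀ m w, ofM m = some w ↔ ofW w = some m

/-- The partner (or `φ`) of an agent. -/
def Matching.partner {M W : Type} (μ : Matching M W) : ∀ a : M ⊕ W, Option (Other M W a)
  | .inl m => μ.ofM m
  | .inr w => μ.ofW w

/-- Stability: no agent ranks `φ` above its partner, and no pair blocks. -/
def Stable {M W : Type} (P : Profile M W) (μ : Matching M W) : Prop :=
  (∀ a, ¬ (P a).gt none (μ.partner a)) ∧
  ∀ (m : M) (w : W), ¬ ((P (.inl m)).gt (some w) (μ.partner (.inl m)) ∧
    (P (.inr w)).gt (some m) (μ.partner (.inr w)))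

/-- A mechanism maps each profile to a matching. -/
abbrev Mechanism (M W : Type) := Profile M W → Matching M W

/-- A stable matching mechanism. -/
def IsStable {M W : Type} (F : Mechanism M W) : Prop := ∀ P, Stable P (F P)

section
variable {M W : Type} [DecidableEq M] [DecidableEq W]

/-- The partner of `i` under `F` when `i` reports `r` and everybody else reports as in `P`. -/
noncomputable def outcome (F : Mechanism M W) (P : Profile M W) (i : M ⊕ W)
    (r : Pref (Other M W i)) : Option (Other M W i) :=
  (F (update P i r)).partner i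

/-- Agent `i` with true order `t` knows that the agents of `K` report as in `Q`.  The report `r` is
safe: for all reports of the remaining agents, `i` weakly prefers (i.e. does not disprefer) its
partner when reporting `r` to its partner when reporting `t`. -/
def Safe (F : Mechanism M W) (i : M ⊕ W) (t : Pref (Other M W i)) (K : Finset (M ⊕ W))
    (Q : Profile M W) (r : Pref (Other M W i)) : Prop :=
  ∀ P : Profile M W, (∀ a ∈ K, P a = Q a) → ¬ t.gt (outcome F P i t) (outcome F P i r)

/-- The report `r` is profitable: for some reports of the remaining agents, `i` strictly prefers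
its partner when reporting `r`. -/
def Profitable (F : Mechanism M W) (i : M ⊕ W) (t : Pref (Other M W i)) (K : Finset (M ⊕ W))
    (Q : Profile M W) (r : Pref (Other M W i)) : Prop :=
  ∃ P : Profile M W, (∀ a ∈ K, P a = Q a) ∧ t.gt (outcome F P i r) (outcome F P i t)

/-- `F` is `k`-known-agents safely manipulable. -/
def KnownAgentsManipulable (F : Mechanism M W) (k : ℕ) : Prop :=
  ∃ (i : M ⊕ W) (t : Pref (Other M W i)) (K : Finset (M ⊕ W)) (Q : Profile M W)
    (r : Pref (Other M W i)),
    i ∉ K ∧ K.card = k ∧ r ≠ t ∧ Safe F i t K Q r ∧ Profitable F i t K Q r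

/-- The RAT-degree: the least `k < n` such that `F` is `k`-known-agents safely manipulable, and
`n = |M| + |W|` if there is none. -/
noncomputable def ratDegree [Fintype M] [Fintype W] (F : Mechanism M W) : ℕ :=
  sInf ({k | k < Fintype.card M + Fintype.card W ∧ KnownAgentsManipulable F k} ∪
    {Fintype.card M + Fintype.card W})

end

/-! ### Preferences with prescribed top three -/

section pref
variable {X : Type}

/-- order given by an injective rank function (smaller is better) -/
def Pref.ofRank (f : Option X → ℕ) (hf : Injective f) : Pref X where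
  gt x y := f x < f y
  strict :=
    { trichotomous := fun _ _ h₁ h₂ => hf (le_antisymm (not_lt.mp h₂) (not_lt.mp h₁))
      irrefl := fun a => lt_irrefl (f a)
      trans := fun _ _ _ => lt_trans }

variable [DecidableEq X] [Fintype X]

/-- rank function with prescribed top three -/
noncomputable def rank3 (x y z : Option X) (u : Option X) : ℕ :=
  if u = x then 0 else if u = y then 1 else if u = z then 2
    else 3 + (Fintype.equivFin (Option X) u : ℕ)

lemma rank3_inj (x y z : Option X) : Injective (rank3 x y z) := by
  intro u v h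
  unfold rank3 at h
  split_ifs at h with h1 h2 h3 h4 h5 h6 h7 h8 h9 h10 <;> first | (subst_vars; rfl) | omega | skip
  have h' : (Fintype.equivFin (Option X) u : ℕ) = (Fintype.equivFin (Option X) v : ℕ) := by omega
  exact (Fintype.equivFin (Option X)).injective (Fin.ext h')

/-- the preference `x ≻ y ≻ z ≻ rest` -/
noncomputable def top3 (x y z : Option X) : Pref X := Pref.ofRank (rank3 x y z) (rank3_inj x y z)

lemma top3_gt (x y z u v : Option X) : (top3 x y z).gt u v ↔ rank3 x y z u < rank3 x y z v :=
  Iff.rfl

lemma rank3_x (x y z : Option X) : rank3 x y z x = 0 := by simp [rank3]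

lemma rank3_y {x y : Option X} (z : Option X) (h : y ≠ x) : rank3 x y z y = 1 := by
  simp [rank3, h]

lemma rank3_z {x y z : Option X} (h : z ≠ x) (h' : z ≠ y) : rank3 x y z z = 2 := by
  simp [rank3, h, h']

lemma acc3 {x y z u : Option X} (h : z ≠ x) (h' : z ≠ y)
    (hu : ¬ rank3 x y z z < rank3 x y z u) : u = x ∨ u = y ∨ u = z := by
  rw [rank3_z h h'] at hu
  by_contra hc
  push Not at hc
  apply hu
  simp only [rank3, hc.1, hc.2.1, hc.2.2, if_false]
  omega

lemma acc2 {x y z u : Option X} (h : y ≠ x)
    (hu : ¬ rank3 x y z y < rank3 x y z u) : u = x ∨ u = y := by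
  rw [rank3_y z h] at hu
  by_contra hc
  push Not at hc
  apply hu
  simp only [rank3, hc.1, hc.2, if_false]
  split_ifs <;> omega

lemma top_lt {x y z u : Option X} (h : u ≠ x) : rank3 x y z x < rank3 x y z u := by
  rw [rank3_x]
  simp only [rank3, h, if_false]
  split_ifs <;> omega

lemma mid_lt {x y z u : Option X} (h : y ≠ x) (hu : u ≠ x) (hu' : u ≠ y) :
    rank3 x y z y < rank3 x y z u := by
  rw [rank3_y z h]
  simp only [rank3, hu, hu', if_false]
  split_ifs <;> omega

lemma top3_ne {x y z : Option X} (hyx : y ≠ x) (hzx : z ≠ x) (hzy : z ≠ y) :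
    top3 x z y ≠ top3 x y z := by
  intro h
  have h1 : (top3 x z y).gt z y := by
    rw [top3_gt, rank3_y _ hzx, rank3_z hyx hzy.symm]; norm_num
  rw [h, top3_gt, rank3_y _ hyx, rank3_z hzx hzy] at h1
  omega

end pref


section main
variable {M W : Type} [DecidableEq M] [DecidableEq W] [Fintype M] [Fintype W]

/-- an order reported by an agent of `M` -/
noncomputable def pM (m : M) (x y z : Option W) : Pref (Other M W (.inl m)) :=
  (top3 x y z : Pref W)

/-- an order reported by an agent of `W` -/
noncomputable def pW (w : W) (x y z : Option M) : Pref (Other M W (.inr w)) :=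
  (top3 x y z : Pref M)

lemma irM {P : Profile M W} {μ : Matching M W} (hs : Stable P μ) {m : M} {x y z : Option W}
    (h : P (.inl m) = pM m x y z) : ¬ rank3 x y z none < rank3 x y z (μ.ofM m) := by
  have := hs.1 (.inl m)
  rw [h] at this
  exact this

lemma irW {P : Profile M W} {μ : Matching M W} (hs : Stable P μ) {w : W} {x y z : Option M}
    (h : P (.inr w) = pW w x y z) : ¬ rank3 x y z none < rank3 x y z (μ.ofW w) := by
  have := hs.1 (.inr w)
  rw [h] at this
  exact this

lemma noblock {P : Profile M W} {μ : Matching M W} (hs : Stable P μ) {m : M} {w : W}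
    {x y z : Option W} {x' y' z' : Option M}
    (h : P (.inl m) = pM m x y z) (h' : P (.inr w) = pW w x' y' z')
    (h1 : rank3 x y z (some w) < rank3 x y z (μ.ofM m))
    (h2 : rank3 x' y' z' (some m) < rank3 x' y' z' (μ.ofW w)) : False := by
  have := hs.2 m w
  rw [h, h'] at this
  exact this ⟨h1, h2⟩

/-- with the three known agents `m₁, m₂, w₂`, the truncation of `w₁` gets `m₂` -/
lemma coreB {P : Profile M W} {μ : Matching M W} (hs : Stable P μ) {m₁ m₂ : M} {w₁ w₂ : W}
    (hm : m₁ ≠ m₂) (hw : w₁ ≠ w₂)
    (hm₁ : P (.inl m₁) = pM m₁ (some w₁) (some w₂) none)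
    (hm₂ : P (.inl m₂) = pM m₂ (some w₂) (some w₁) none)
    (hw₂ : P (.inr w₂) = pW w₂ (some m₁) (some m₂) none)
    (hw₁ : P (.inr w₁) = pW w₁ (some m₂) none (some m₁)) : μ.ofW w₁ = some m₂ := by
  rcases acc2 (by simp) (irW hs hw₁) with h | h
  · exact h
  exfalso
  have e1 : μ.ofM m₁ ≠ some w₁ := fun hh => by
    rw [μ.compat] at hh; rw [h] at hh; simp at hh
  have e2 : μ.ofM m₂ ≠ some w₁ := fun hh => by
    rw [μ.compat] at hh; rw [h] at hh; simp at hh
  have e3 : μ.ofM m₂ = some w₂ := by
    rcases acc3 (by simp) (by simp) (irM hs hm₂) with h' | h' | h'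
    · exact h'
    · exact absurd h' e2
    · exfalso
      refine noblock hs hm₂ hw₁ ?_ ?_
      · rw [h']; exact mid_lt (by simpa using hw) (by simp) (by simp)
      · rw [h]; exact top_lt (by simp)
  have e4 : μ.ofW w₂ = some m₂ := (μ.compat _ _).1 e3
  have e5 : μ.ofM m₁ = none := by
    rcases acc3 (by simp) (by simp) (irM hs hm₁) with h' | h' | h'
    · exact absurd h' e1
    · rw [μ.compat, e4] at h'
      simp at h'
      exact absurd h'.symm hm
    · exact h'
  refine noblock hs hm₁ hw₂ ?_ ?_
  · rw [e5]; exact mid_lt (by simpa using hw.symm) (by simp) (by simp)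
  · rw [e4]; exact top_lt (by simpa using hm.symm)

/-- with the three known agents `m₂, w₁, w₂`, the truncation of `m₁` gets `w₁` -/
lemma coreC {P : Profile M W} {μ : Matching M W} (hs : Stable P μ) {m₁ m₂ : M} {w₁ w₂ : W}
    (hm : m₁ ≠ m₂) (hw : w₁ ≠ w₂)
    (hm₂ : P (.inl m₂) = pM m₂ (some w₂) (some w₁) none)
    (hw₁ : P (.inr w₁) = pW w₁ (some m₂) (some m₁) none)
    (hw₂ : P (.inr w₂) = pW w₂ (some m₁) (some m₂) none)
    (hm₁ : P (.inl m₁) = pM m₁ (some w₁) none (some w₂)) : μ.ofM m₁ = some w₁ := by
  rcases acc2 (by simp) (irM hs hm₁) with h | h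
  · exact h
  exfalso
  have e1 : μ.ofW w₁ ≠ some m₁ := fun hh => by
    rw [← μ.compat] at hh; rw [h] at hh; simp at hh
  have e2 : μ.ofW w₂ ≠ some m₁ := fun hh => by
    rw [← μ.compat] at hh; rw [h] at hh; simp at hh
  have e3 : μ.ofW w₁ = some m₂ := by
    rcases acc3 (by simp) (by simp) (irW hs hw₁) with h' | h' | h'
    · exact h'
    · exact absurd h' e1
    · exfalso
      refine noblock hs hm₁ hw₁ ?_ ?_
      · rw [h]; exact top_lt (by simp)
      · rw [h']; exact mid_lt (by simpa using hm) (by simp) (by simp)
  have e4 : μ.ofM m₂ = some w₁ := (μ.compat _ _).2 e3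
  have e5 : μ.ofW w₂ = none := by
    rcases acc3 (by simp) (by simp) (irW hs hw₂) with h' | h' | h'
    · exact absurd h' e2
    · rw [← μ.compat, e4] at h'
      simp at h'
      exact absurd h' hw
    · exact h'
  refine noblock hs hm₂ hw₂ ?_ ?_
  · rw [e4]; exact top_lt (by simpa using hw)
  · rw [e5]; exact mid_lt (by simpa using hm.symm) (by simp) (by simp)

/-- the profile of the four agents -/
noncomputable def base (m₁ m₂ : M) (w₁ w₂ : W) : Profile M W
  | .inl m => if m = m₁ then pM m (some w₁) (some w₂) none else pM m (some w₂) (some w₁) none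
  | .inr w => if w = w₁ then pW w (some m₂) (some m₁) none else pW w (some m₁) (some m₂) none

theorem manipulable_three {F : Mechanism M W} (hF : IsStable F) {m₁ m₂ : M} {w₁ w₂ : W}
    (hm : m₁ ≠ m₂) (hw : w₁ ≠ w₂) : KnownAgentsManipulable F 3 := by
  set Q := base m₁ m₂ w₁ w₂ with hQ
  have q1 : Q (.inl m₁) = pM m₁ (some w₁) (some w₂) none := by simp [hQ, base]
  have q2 : Q (.inl m₂) = pM m₂ (some w₂) (some w₁) none := by simp [hQ, base, hm.symm]
  have q3 : Q (.inr w₁) = pW w₁ (some m₂) (some m₁) none := by simp [hQ, base]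
  have q4 : Q (.inr w₂) = pW w₂ (some m₁) (some m₂) none := by simp [hQ, base, hw.symm]
  have i1 : (Sum.inl m₁ : M ⊕ W) ≠ .inl m₂ := by simpa using hm
  have i2 : (Sum.inr w₁ : M ⊕ W) ≠ .inr w₂ := by simpa using hw
  by_cases h : ∃ P : Profile M W,
      (∀ a ∈ ({.inl m₁, .inl m₂, .inr w₂} : Finset (M ⊕ W)), P a = Q a) ∧
      (F (update P (.inr w₁) (Q (.inr w₁)))).ofW w₁ ≠ some m₂
  · refine ⟨.inr w₁, Q (.inr w₁), {.inl m₁, .inl m₂, .inr w₂}, Q,
      pW w₁ (some m₂) none (some m₁), ?_, ?_, ?_, ?_, ?_⟩
    · simp [hw]
    · rw [Finset.card_eq_three]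
      exact ⟨_, _, _, i1, by simp, by simp, rfl⟩
    · rw [q3]
      exact top3_ne (by simpa using hm) (by simp) (by simp)
    · intro P hP
      have e : outcome F P (.inr w₁) (pW w₁ (some m₂) none (some m₁)) = some m₂ := by
        refine coreB (hF _) hm hw ?_ ?_ ?_ ?_
        · rw [update_of_ne (by simp), hP _ (by simp), q1]
        · rw [update_of_ne (by simp), hP _ (by simp), q2]
        · rw [update_of_ne i2.symm, hP _ (by simp), q4]
        · rw [update_self]
      rw [e, q3]
      change ¬ rank3 (some m₂) (some m₁) none _ < rank3 (some m₂) (some m₁) none (some m₂)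
      rw [rank3_x]
      omega
    · obtain ⟨P, hP, hP'⟩ := h
      refine ⟨P, hP, ?_⟩
      have e : outcome F P (.inr w₁) (pW w₁ (some m₂) none (some m₁)) = some m₂ := by
        refine coreB (hF _) hm hw ?_ ?_ ?_ ?_
        · rw [update_of_ne (by simp), hP _ (by simp), q1]
        · rw [update_of_ne (by simp), hP _ (by simp), q2]
        · rw [update_of_ne i2.symm, hP _ (by simp), q4]
        · rw [update_self]
      rw [e]
      conv => enter [1]; rw [q3]
      change rank3 (some m₂) (some m₁) none (some m₂) <
        rank3 (some m₂) (some m₁) none ((F (update P (.inr w₁) (Q (.inr w₁)))).ofW w₁)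
      exact top_lt hP'
  · push Not at h
    refine ⟨.inl m₁, Q (.inl m₁), {.inl m₂, .inr w₁, .inr w₂}, Q,
      pM m₁ (some w₁) none (some w₂), ?_, ?_, ?_, ?_, ?_⟩
    · simp [hm]
    · rw [Finset.card_eq_three]
      exact ⟨_, _, _, by simp, by simp, i2, rfl⟩
    · rw [q1]
      exact top3_ne (by simpa using hw.symm) (by simp) (by simp)
    · intro P hP
      have e : outcome F P (.inl m₁) (pM m₁ (some w₁) none (some w₂)) = some w₁ := by
        refine coreC (hF _) hm hw ?_ ?_ ?_ ?_
        · rw [update_of_ne i1.symm, hP _ (by simp), q2]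
        · rw [update_of_ne (by simp), hP _ (by simp), q3]
        · rw [update_of_ne (by simp), hP _ (by simp), q4]
        · rw [update_self]
      rw [e, q1]
      change ¬ rank3 (some w₁) (some w₂) none _ < rank3 (some w₁) (some w₂) none (some w₁)
      rw [rank3_x]
      omega
    · refine ⟨Q, fun _ _ => rfl, ?_⟩
      have e : outcome F Q (.inl m₁) (pM m₁ (some w₁) none (some w₂)) = some w₁ := by
        refine coreC (hF _) hm hw ?_ ?_ ?_ ?_
        · rw [update_of_ne i1.symm, q2]
        · rw [update_of_ne (by simp), q3]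
        · rw [update_of_ne (by simp), q4]
        · rw [update_self]
      have h1 := h Q (fun _ _ => rfl)
      rw [update_eq_self] at h1
      have e' : outcome F Q (.inl m₁) (Q (.inl m₁)) ≠ some w₁ := by
        unfold outcome
        rw [update_eq_self]
        change (F Q).ofM m₁ ≠ some w₁
        intro hh
        rw [(F Q).compat, h1] at hh
        simp at hh
        exact hm hh.symm
      rw [e]
      conv => enter [1]; rw [q1]
      change rank3 (some w₁) (some w₂) none (some w₁) <
        rank3 (some w₁) (some w₂) none _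
      exact top_lt e'

end main

/-- A family of mechanisms, one for each pair of finite agent sets (the agent set being the
disjoint union `M ⊕ W`). -/
abbrev Family := ∀ (M W : Type) [Fintype M] [Fintype W] [DecidableEq M] [DecidableEq W],
  Mechanism M W

/-- **Main theorem.**
(1) Every stable matching mechanism with at least two agents on each side is
`3`-known-agents safely manipulable, and so has RAT-degree at most `3`.
(2) For every family of stable matching mechanisms and every `c > 0` the RAT-degree is below
`c * (|M| + |W|)` for all but finitely many sizes with two agents on each side, so the answer to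
Q1 is negative: no family of stable matching mechanisms has RAT-degree `Ω(n)`. -/
theorem result :
    (∀ (M W : Type) [Fintype M] [Fintype W] [DecidableEq M] [DecidableEq W] (F : Mechanism M W),
      IsStable F → 2 ≤ Fintype.card M → 2 ≤ Fintype.card W →
        KnownAgentsManipulable F 3 ∧ ratDegree F ≤ 3) ∧
    (∀ (F : Family),
      (∀ (M W : Type) [Fintype M] [Fintype W] [DecidableEq M] [DecidableEq W],
        IsStable (F M W)) →
      ∀ c : ℝ, 0 < c → ∃ n₀ : ℕ,
        ∀ (M W : Type) [Fintype M] [Fintype W] [DecidableEq M] [DecidableEq W],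
          n₀ ≤ Fintype.card M + Fintype.card W → 2 ≤ Fintype.card M → 2 ≤ Fintype.card W →
            (ratDegree (F M W) : ℝ) < c * (Fintype.card M + Fintype.card W)) ∧
    ¬ ∃ (F : Family) (c : ℝ) (n₀ : ℕ), 0 < c ∧
      (∀ (M W : Type) [Fintype M] [Fintype W] [DecidableEq M] [DecidableEq W],
        IsStable (F M W)) ∧
      ∀ (M W : Type) [Fintype M] [Fintype W] [DecidableEq M] [DecidableEq W],
        n₀ ≤ Fintype.card M + Fintype.card W →
          c * (Fintype.card M + Fintype.card W) ≤ (ratDegree (F M W) : ℝ) := by
  have key : ∀ (M W : Type) [Fintype M] [Fintype W] [DecidableEq M] [DecidableEq W]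
      (F : Mechanism M W), IsStable F → 2 ≤ Fintype.card M → 2 ≤ Fintype.card W →
        KnownAgentsManipulable F 3 ∧ ratDegree F ≤ 3 := by
    intro M W _ _ _ _ F hF hM hW
    obtain ⟨m₁, m₂, hm⟩ := Fintype.exists_pair_of_one_lt_card (α := M) (by omega)
    obtain ⟨w₁, w₂, hw⟩ := Fintype.exists_pair_of_one_lt_card (α := W) (by omega)
    have h := manipulable_three hF hm hw
    refine ⟨h, Nat.sInf_le (Or.inl ⟨?_, h⟩)⟩
    omega
  have key2 : ∀ (F : Family),
      (∀ (M W : Type) [Fintype M] [Fintype W] [DecidableEq M] [DecidableEq W],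
        IsStable (F M W)) →
      ∀ c : ℝ, 0 < c → ∃ n₀ : ℕ,
        ∀ (M W : Type) [Fintype M] [Fintype W] [DecidableEq M] [DecidableEq W],
          n₀ ≤ Fintype.card M + Fintype.card W → 2 ≤ Fintype.card M → 2 ≤ Fintype.card W →
            (ratDegree (F M W) : ℝ) < c * (Fintype.card M + Fintype.card W) := by
    intro F hF c hc
    obtain ⟨N, hN⟩ := exists_nat_gt (3 / c)
    refine ⟨N, fun M W _ _ _ _ hn hM hW => ?_⟩
    have h1 : (ratDegree (F M W) : ℝ) ≤ 3 := by
      exact_mod_cast (key M W (F M W) (hF M W) hM hW).2
    have h2 : (N : ℝ) ≤ (Fintype.card M : ℝ) + Fintype.card W := by exact_mod_cast hn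
    have h3 : 3 < c * N := by
      rw [div_lt_iff₀ hc] at hN
      linarith
    have h4 : c * N ≤ c * ((Fintype.card M : ℝ) + Fintype.card W) :=
      mul_le_mul_of_nonneg_left h2 hc.le
    linarith
  refine ⟨key, key2, ?_⟩
  rintro ⟨F, c, n₀, hc, hF, h⟩
  obtain ⟨n₁, hn₁⟩ := key2 F hF c hc
  have h1 := h (Fin (n₀ + 2)) (Fin (n₁ + 2)) (by simp; omega)
  have h2 := hn₁ (Fin (n₀ + 2)) (Fin (n₁ + 2)) (by simp; omega) (by simp) (by simp)
  linarith

end Pool.Agent.Results.MP_35fdad_lc.RatDegreeAtMostThree
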